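import Pool.Agent.Q66.LEStm

open Real Set MeasureTheory Filter Topology
open scoped ContDiff

noncomputable section

namespace Pool.Agent.Q296.LE

open Pool.Agent.Q66.LE

/-- alternating sums of powers -/
theorem alt_sum {N a : ℕ} (h : a < N) :
    ∑ i ∈ Finset.range (N + 1), (-1 : ℝ) ^ i * (N.choose i : ℝ) * (i : ℝ) ^ a = 0 := by
  have h1 := fwdDiff_iter_eq_sum_shift (1 : ℝ) (fun r : ℝ => r ^ a) N 0
  rw [fwdDiff_iter_pow_eq_zero_of_lt h] at h1
  have h2 : ∑ i ∈ Finset.range (N + 1), (-1 : ℝ) ^ i * (N.choose i : ℝ) * (i : ℝ) ^ a =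
      (-1 : ℝ) ^ N * ∑ k ∈ Finset.range (N + 1),
        ((-1 : ℤ) ^ (N - k) * (N.choose k : ℤ)) • ((0 : ℝ) + k • (1 : ℝ)) ^ a := by
    rw [Finset.mul_sum]
    apply Finset.sum_congr rfl
    intro k hk
    rw [Finset.mem_range] at hk
    have h3 : (-1 : ℝ) ^ N = (-1) ^ (N - k) * (-1) ^ k := by
      rw [← pow_add, Nat.sub_add_cancel (by omega)]
    have h4 : (-1 : ℝ) ^ (N - k) * (-1) ^ (N - k) = 1 := by
      rw [← mul_pow]
      norm_num
    rw [zsmul_eq_mul, zero_add, nsmul_eq_mul, mul_one, h3]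
    push_cast
    calc (-1 : ℝ) ^ k * (N.choose k : ℝ) * (k : ℝ) ^ a =
        ((-1 : ℝ) ^ (N - k) * (-1) ^ (N - k)) * ((-1 : ℝ) ^ k * (N.choose k : ℝ) * (k : ℝ) ^ a) := by
          rw [h4, one_mul]
      _ = _ := by ring
  rw [h2, ← h1]
  simp

/-- the doubled difference of a monomial -/
def kap (N l : ℕ) : ℝ := ∑ i ∈ Finset.range (N + 1), ∑ j ∈ Finset.range (N + 1),
    (-1 : ℝ) ^ (i + j) * (N.choose i : ℝ) * (N.choose j : ℝ) * ((i : ℝ) - (j : ℝ)) ^ l

theorem kap_zero {N l : ℕ} (h : l < 2 * N) : kap N l = 0 := by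
  have h1 : kap N l = ∑ i ∈ Finset.range (N + 1), ∑ j ∈ Finset.range (N + 1),
      ∑ a ∈ Finset.range (l + 1), (l.choose a : ℝ) * (-1) ^ (l - a) *
        (((-1 : ℝ) ^ i * (N.choose i : ℝ) * (i : ℝ) ^ a) *
          ((-1 : ℝ) ^ j * (N.choose j : ℝ) * (j : ℝ) ^ (l - a))) := by
    unfold kap
    refine Finset.sum_congr rfl fun i _ => Finset.sum_congr rfl fun j _ => ?_
    rw [sub_eq_add_neg, add_pow, Finset.mul_sum]
    refine Finset.sum_congr rfl fun a _ => ?_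
    rw [neg_pow (j : ℝ), pow_add]
    ring
  have h2 : kap N l = ∑ a ∈ Finset.range (l + 1), ∑ i ∈ Finset.range (N + 1),
      ∑ j ∈ Finset.range (N + 1), (l.choose a : ℝ) * (-1) ^ (l - a) *
        (((-1 : ℝ) ^ i * (N.choose i : ℝ) * (i : ℝ) ^ a) *
          ((-1 : ℝ) ^ j * (N.choose j : ℝ) * (j : ℝ) ^ (l - a))) := by
    rw [h1, Finset.sum_congr rfl fun i _ => Finset.sum_comm, Finset.sum_comm]
  rw [h2]
  apply Finset.sum_eq_zero
  intro a _
  have h3 : ∑ i ∈ Finset.range (N + 1),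
      ∑ j ∈ Finset.range (N + 1), (l.choose a : ℝ) * (-1) ^ (l - a) *
        (((-1 : ℝ) ^ i * (N.choose i : ℝ) * (i : ℝ) ^ a) *
          ((-1 : ℝ) ^ j * (N.choose j : ℝ) * (j : ℝ) ^ (l - a))) =
      (l.choose a : ℝ) * (-1) ^ (l - a) *
        ((∑ i ∈ Finset.range (N + 1), (-1 : ℝ) ^ i * (N.choose i : ℝ) * (i : ℝ) ^ a) *
        ∑ j ∈ Finset.range (N + 1), (-1 : ℝ) ^ j * (N.choose j : ℝ) * (j : ℝ) ^ (l - a)) := by
    rw [Finset.sum_mul_sum, Finset.mul_sum]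
    refine Finset.sum_congr rfl fun i _ => ?_
    rw [Finset.mul_sum]
  rw [h3]
  rcases lt_or_ge a N with h4 | h4
  · rw [alt_sum h4]; ring
  · rw [alt_sum (show l - a < N by omega)]; ring

theorem DD_poly (N : ℕ) (g : Polynomial ℝ) (t : ℝ) :
    DD N (fun s => g.eval s) t =
      ∑ l ∈ Finset.range (g.natDegree + 1), g.coeff l * (t ^ l * kap N l) := by
  unfold DD kap
  have h1 : ∀ i ∈ Finset.range (N + 1), ∀ j ∈ Finset.range (N + 1),
      (-1 : ℝ) ^ (i + j) * (N.choose i : ℝ) * (N.choose j : ℝ) * g.eval (((i : ℝ) - (j : ℝ)) * t) =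
      ∑ l ∈ Finset.range (g.natDegree + 1), g.coeff l * (t ^ l *
        ((-1 : ℝ) ^ (i + j) * (N.choose i : ℝ) * (N.choose j : ℝ) * ((i : ℝ) - (j : ℝ)) ^ l)) := by
    intro i _ j _
    rw [Polynomial.eval_eq_sum_range, Finset.mul_sum]
    refine Finset.sum_congr rfl fun l _ => ?_
    rw [mul_pow]
    ring
  rw [Finset.sum_congr rfl fun i hi => Finset.sum_congr rfl fun j hj => h1 i hi j hj,
    Finset.sum_congr rfl fun i _ => Finset.sum_comm, Finset.sum_comm]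
  refine Finset.sum_congr rfl fun l _ => ?_
  rw [Finset.mul_sum, Finset.mul_sum]
  refine Finset.sum_congr rfl fun i _ => ?_
  rw [Finset.mul_sum, Finset.mul_sum]

theorem DD_poly_bound (N : ℕ) (g : Polynomial ℝ) : ∃ C : ℝ, ∀ t : ℝ, |t| ≤ 1 →
    |DD N (fun s => g.eval s) t| ≤ C * t ^ (2 * N) := by
  refine ⟨∑ l ∈ Finset.range (g.natDegree + 1), |g.coeff l * kap N l|, fun t ht => ?_⟩
  rw [DD_poly, Finset.sum_mul]
  refine (Finset.abs_sum_le_sum_abs _ _).trans (Finset.sum_le_sum fun l _ => ?_)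
  have hev : |t| ^ (2 * N) = t ^ (2 * N) := by rw [pow_mul, sq_abs, pow_mul]
  rcases lt_or_ge l (2 * N) with h | h
  · rw [kap_zero h]
    simp
  · rw [← hev, show g.coeff l * (t ^ l * kap N l) = g.coeff l * kap N l * t ^ l by ring, abs_mul,
      abs_pow]
    have : |t| ^ l ≤ |t| ^ (2 * N) := pow_le_pow_of_le_one (abs_nonneg _) ht h
    gcongr

theorem DD_diff (N : ℕ) (hN : 1 ≤ N) (G g : ℝ → ℝ) (C t₀ : ℝ) (hC : 0 ≤ C)
    (h : ∀ t, |t| ≤ t₀ → |G t - g t| ≤ C * |t| ^ (2 * N)) :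
    ∃ C' : ℝ, ∀ t : ℝ, |t| ≤ t₀ / N → |DD N G t - DD N g t| ≤ C' * t ^ (2 * N) := by
  have hN0 : (0 : ℝ) < N := by exact_mod_cast hN
  refine ⟨∑ i ∈ Finset.range (N + 1), ∑ j ∈ Finset.range (N + 1),
    (N.choose i : ℝ) * (N.choose j : ℝ) * (C * (N : ℝ) ^ (2 * N)), fun t ht => ?_⟩
  have hev : |t| ^ (2 * N) = t ^ (2 * N) := by rw [pow_mul, sq_abs, pow_mul]
  unfold DD
  rw [← Finset.sum_sub_distrib, Finset.sum_mul]
  refine (Finset.abs_sum_le_sum_abs _ _).trans (Finset.sum_le_sum fun i hi => ?_)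
  rw [← Finset.sum_sub_distrib, Finset.sum_mul]
  refine (Finset.abs_sum_le_sum_abs _ _).trans (Finset.sum_le_sum fun j hj => ?_)
  rw [Finset.mem_range] at hi hj
  rw [← mul_sub, abs_mul, abs_mul, abs_mul, abs_pow, abs_neg, abs_one, one_pow, one_mul,
    abs_of_nonneg (Nat.cast_nonneg (N.choose i)), abs_of_nonneg (Nat.cast_nonneg (N.choose j))]
  have hij : |(i : ℝ) - (j : ℝ)| ≤ N := by
    have h1 : (i : ℝ) ≤ N := by exact_mod_cast (by omega : i ≤ N)
    have h2 : (j : ℝ) ≤ N := by exact_mod_cast (by omega : j ≤ N)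
    have h3 : (0 : ℝ) ≤ i := Nat.cast_nonneg i
    have h4 : (0 : ℝ) ≤ j := Nat.cast_nonneg j
    rw [abs_le]
    constructor <;> linarith
  have h1 : |((i : ℝ) - (j : ℝ)) * t| ≤ N * |t| := by
    rw [abs_mul]
    gcongr
  have h2 : |((i : ℝ) - (j : ℝ)) * t| ≤ t₀ := by
    refine h1.trans ?_
    rw [le_div_iff₀ hN0] at ht
    linarith
  have h3 := h _ h2
  have h4 : C * |((i : ℝ) - (j : ℝ)) * t| ^ (2 * N) ≤ C * (N : ℝ) ^ (2 * N) * t ^ (2 * N) := by
    rw [← hev, mul_assoc, ← mul_pow]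
    gcongr
  calc _ ≤ (N.choose i : ℝ) * (N.choose j : ℝ) * (C * (N : ℝ) ^ (2 * N) * t ^ (2 * N)) := by
        have := h3.trans h4
        gcongr
    _ = _ := by ring

/-- a polynomial which is `O(t^m)` at `0` is divisible by `X^m` -/
theorem dvd_of_bigO (m : ℕ) : ∀ (p : Polynomial ℝ) (C t₀ : ℝ), 0 < t₀ →
    (∀ t, |t| ≤ t₀ → |p.eval t| ≤ C * |t| ^ m) → Polynomial.X ^ m ∣ p := by
  induction m with
  | zero => intro p _ _ _ _; simp
  | succ m ih =>
    intro p C t₀ ht₀ h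
    have hC : 0 ≤ C := by
      have h1 := (abs_nonneg _).trans (h t₀ (by rw [abs_of_pos ht₀]))
      have h2 : 0 < |t₀| ^ (m + 1) := by positivity
      by_contra hcon
      push Not at hcon
      have := mul_neg_of_neg_of_pos hcon h2
      linarith
    obtain ⟨q, hq⟩ := ih p (C * t₀) t₀ ht₀ (fun t ht => by
      refine (h t ht).trans ?_
      rw [pow_succ, mul_assoc C t₀, mul_comm t₀]
      gcongr)
    have h1 : ∀ t, t ≠ 0 → |t| ≤ t₀ → |q.eval t| ≤ C * |t| := by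
      intro t ht ht2
      have h2 := h t ht2
      rw [hq, Polynomial.eval_mul, Polynomial.eval_pow, Polynomial.eval_X, abs_mul, abs_pow] at h2
      have h3 : 0 < |t| ^ m := pow_pos (abs_pos.2 ht) m
      have h4 : |t| ^ m * |q.eval t| ≤ |t| ^ m * (C * |t|) := by
        refine h2.trans (le_of_eq ?_)
        ring
      exact le_of_mul_le_mul_left h4 h3
    have h2 : |q.eval 0| ≤ 0 := by
      have h3 : Tendsto (fun t : ℝ => |q.eval t|) (𝓝[≠] 0) (𝓝 |q.eval 0|) :=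
        (q.continuous.abs.tendsto 0).mono_left nhdsWithin_le_nhds
      have h4 : Tendsto (fun t : ℝ => C * |t|) (𝓝[≠] 0) (𝓝 0) := by
        have : Tendsto (fun t : ℝ => C * |t|) (𝓝 0) (𝓝 (C * |(0 : ℝ)|)) :=
          (continuous_const.mul continuous_abs).tendsto 0
        rw [abs_zero, mul_zero] at this
        exact this.mono_left nhdsWithin_le_nhds
      refine le_of_tendsto_of_tendsto h3 h4 ?_
      have h5 : ∀ᶠ t : ℝ in 𝓝[≠] 0, |t| ≤ t₀ := by
        have : ∀ᶠ t : ℝ in 𝓝 0, |t| ≤ t₀ := by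
          filter_upwards [Metric.ball_mem_nhds (0 : ℝ) ht₀] with t ht
          rw [Metric.mem_ball, Real.dist_eq, sub_zero] at ht
          exact ht.le
        exact nhdsWithin_le_nhds this
      filter_upwards [h5, self_mem_nhdsWithin] with t ht ht2
      exact h1 t ht2 ht
    have h3 : q.eval 0 = 0 := abs_eq_zero.1 (le_antisymm h2 (abs_nonneg _))
    have h4 : Polynomial.X ∣ q := by
      rw [Polynomial.X_dvd_iff, Polynomial.coeff_zero_eq_eval_zero, h3]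
    obtain ⟨q', hq'⟩ := h4
    exact ⟨q', by rw [hq, hq']; ring⟩

theorem exists_taylor (n : ℕ) (f : ℝ → ℝ) (hf : ContDiffAt ℝ ((n : ℕ) : ℕ∞) f 0) :
    ∃ (p : Polynomial ℝ) (t₀ : ℝ), 0 < t₀ ∧ ∀ t, |t| ≤ t₀ → |f t - p.eval t| ≤ |t| ^ n := by
  obtain ⟨u, hu, hcd⟩ := hf.contDiffOn (m := ((n : ℕ) : ℕ∞)) le_rfl (by simp)
  obtain ⟨r, hr, hru⟩ := Metric.mem_nhds_iff.1 hu
  have hcd' : ContDiffOn ℝ n f (Metric.ball 0 r) := hcd.mono hru
  have h1 := taylor_isLittleO (convex_ball (0 : ℝ) r) (Metric.mem_ball_self hr) hcd'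
  rw [Metric.isOpen_ball.nhdsWithin_eq (Metric.mem_ball_self hr)] at h1
  have h2 := h1.def one_pos
  rw [Metric.eventually_nhds_iff] at h2
  obtain ⟨ε, hε, h3⟩ := h2
  refine ⟨∑ k ∈ Finset.range (n + 1), Polynomial.C (((Nat.factorial k : ℕ) : ℝ)⁻¹ *
    iteratedDerivWithin k f (Metric.ball 0 r) 0) * Polynomial.X ^ k, ε / 2, by positivity, ?_⟩
  intro t ht
  have h4 := h3 (y := t) (by
    rw [Real.dist_eq, sub_zero]
    linarith)
  rw [one_mul, Real.norm_eq_abs, Real.norm_eq_abs, sub_zero, abs_pow, taylor_within_apply] at h4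
  refine le_trans (le_of_eq ?_) h4
  congr 2
  rw [Polynomial.eval_finsetSum]
  refine Finset.sum_congr rfl fun k _ => ?_
  rw [Polynomial.eval_mul, Polynomial.eval_C, Polynomial.eval_pow, Polynomial.eval_X, sub_zero,
    smul_eq_mul]
  ring

theorem calc' : S_calc := by
  intro N hN lam G c₀ c₁ c₂ c₃ C M hc₂ hlam hG hGc hmain
  obtain ⟨P, r, hr, hP⟩ := exists_taylor (6 * N) lam hlam
  have hM : 0 ≤ M := (abs_nonneg _).trans (hG 0)
  set t₀ : ℝ := min r (1 / 2) with ht₀d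
  have ht₀ : 0 < t₀ := lt_min hr (by norm_num)
  have ht₀r : t₀ ≤ r := min_le_left _ _
  have ht₀1 : t₀ ≤ 1 / 2 := min_le_right _ _
  set p : Polynomial ℝ := P - Polynomial.C c₀ - Polynomial.C c₁ * Polynomial.X ^ (2 * N) with hp
  have hpe : ∀ t, p.eval t = P.eval t - c₀ - c₁ * t ^ (2 * N) := by
    intro t
    simp [hp]
  have hev : ∀ (t : ℝ) (k : ℕ), |t| ^ (2 * k) = t ^ (2 * k) := fun t k => by
    rw [pow_mul, sq_abs, pow_mul]
  have h1 : ∀ t, |t| ≤ t₀ → |c₂ * t ^ (4 * N) * (c₃ + G t) - p.eval t| ≤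
      (|C| + 1) * |t| ^ (6 * N) := by
    intro t ht
    have h2 := hP t (ht.trans ht₀r)
    have h3 := hmain t (by
      rw [mem_Ioo, ← abs_lt]
      linarith)
    have h4 : C * t ^ (6 * N) ≤ |C| * |t| ^ (6 * N) := by
      have e : t ^ (6 * N) = |t| ^ (6 * N) := by
        rw [show 6 * N = 2 * (3 * N) by ring, hev]
      rw [e]
      have := le_abs_self C
      gcongr
    rw [hpe]
    have e : c₂ * t ^ (4 * N) * (c₃ + G t) - (P.eval t - c₀ - c₁ * t ^ (2 * N)) =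
        (lam t - P.eval t) - (lam t - (c₀ + c₁ * t ^ (2 * N) + c₂ * t ^ (4 * N) * (c₃ + G t))) := by
      ring
    rw [e]
    refine (abs_sub _ _).trans ?_
    linarith
  obtain ⟨q, hq⟩ := dvd_of_bigO (4 * N) p (|c₂| * (|c₃| + M) + (|C| + 1)) t₀ ht₀ (by
    intro t ht
    have h2 := h1 t ht
    have h3 : |p.eval t| ≤ |c₂ * t ^ (4 * N) * (c₃ + G t)| +
        |c₂ * t ^ (4 * N) * (c₃ + G t) - p.eval t| := by
      have := abs_sub (c₂ * t ^ (4 * N) * (c₃ + G t)) (c₂ * t ^ (4 * N) * (c₃ + G t) - p.eval t)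
      rwa [sub_sub_cancel] at this
    have h4 : |c₂ * t ^ (4 * N) * (c₃ + G t)| ≤ |c₂| * (|c₃| + M) * |t| ^ (4 * N) := by
      rw [abs_mul, abs_mul, abs_pow]
      have h5 : |c₃ + G t| ≤ |c₃| + M := (abs_add_le _ _).trans (by have := hG t; linarith)
      calc |c₂| * |t| ^ (4 * N) * |c₃ + G t| ≤ |c₂| * |t| ^ (4 * N) * (|c₃| + M) := by gcongr
        _ = _ := by ring
    have h5 : |t| ^ (6 * N) ≤ |t| ^ (4 * N) :=
      pow_le_pow_of_le_one (abs_nonneg _) (by linarith) (by omega)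
    have h6 : (|C| + 1) * |t| ^ (6 * N) ≤ (|C| + 1) * |t| ^ (4 * N) := by gcongr
    rw [add_mul]
    linarith)
  -- the polynomial approximating `G`
  set g : Polynomial ℝ := Polynomial.C c₂⁻¹ * q - Polynomial.C c₃ with hg
  have hge : ∀ t, g.eval t = c₂⁻¹ * q.eval t - c₃ := by
    intro t
    simp [hg]
  have h2 : ∀ t, t ≠ 0 → |t| ≤ t₀ → |G t - g.eval t| ≤ |c₂⁻¹| * (|C| + 1) * |t| ^ (2 * N) := by
    intro t ht ht2
    have h3 := h1 t ht2
    rw [hq, Polynomial.eval_mul, Polynomial.eval_pow, Polynomial.eval_X] at h3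
    have e1 : c₂ * t ^ (4 * N) * (c₃ + G t) - t ^ (4 * N) * q.eval t =
        t ^ (4 * N) * (c₂ * (G t - g.eval t)) := by
      rw [hge]
      field_simp
      ring
    rw [e1, abs_mul, abs_pow, abs_mul, show 6 * N = 4 * N + 2 * N by ring, pow_add] at h3
    have h4 : 0 < |t| ^ (4 * N) := pow_pos (abs_pos.2 ht) _
    have h5 : |c₂| * |G t - g.eval t| ≤ (|C| + 1) * |t| ^ (2 * N) := by
      have h6 : |t| ^ (4 * N) * (|c₂| * |G t - g.eval t|) ≤
          |t| ^ (4 * N) * ((|C| + 1) * |t| ^ (2 * N)) := by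
        refine h3.trans (le_of_eq ?_)
        ring
      exact le_of_mul_le_mul_left h6 h4
    have h6 : 0 < |c₂| := abs_pos.2 hc₂
    rw [abs_inv, mul_assoc, ← div_eq_inv_mul, le_div_iff₀ h6, mul_comm]
    exact h5
  have h3 : ∀ t, |t| ≤ t₀ → |G t - g.eval t| ≤ |c₂⁻¹| * (|C| + 1) * |t| ^ (2 * N) := by
    intro t ht2
    rcases eq_or_ne t 0 with rfl | ht
    · have h4 : |G 0 - g.eval 0| ≤ 0 := by
        have h5 : Tendsto (fun t : ℝ => |G t - g.eval t|) (𝓝[≠] 0) (𝓝 |G 0 - g.eval 0|) :=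
          ((hGc.tendsto.sub (g.continuous.tendsto 0)).abs).mono_left nhdsWithin_le_nhds
        have h6 : Tendsto (fun t : ℝ => |c₂⁻¹| * (|C| + 1) * |t| ^ (2 * N)) (𝓝[≠] 0) (𝓝 0) := by
          have : Tendsto (fun t : ℝ => |c₂⁻¹| * (|C| + 1) * |t| ^ (2 * N)) (𝓝 0)
              (𝓝 (|c₂⁻¹| * (|C| + 1) * |(0 : ℝ)| ^ (2 * N))) :=
            (continuous_const.mul (continuous_abs.pow _)).tendsto 0
          rw [abs_zero, zero_pow (by omega), mul_zero] at this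
          exact this.mono_left nhdsWithin_le_nhds
        refine le_of_tendsto_of_tendsto h5 h6 ?_
        have h7 : ∀ᶠ t : ℝ in 𝓝[≠] 0, |t| ≤ t₀ := by
          have : ∀ᶠ t : ℝ in 𝓝 0, |t| ≤ t₀ := by
            filter_upwards [Metric.ball_mem_nhds (0 : ℝ) ht₀] with t ht
            rw [Metric.mem_ball, Real.dist_eq, sub_zero] at ht
            exact ht.le
          exact nhdsWithin_le_nhds this
        filter_upwards [h7, self_mem_nhdsWithin] with t ht ht2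
        exact h2 t ht2 ht
      refine h4.trans ?_
      positivity
    · exact h2 t ht ht2
  obtain ⟨C1, hC1⟩ := DD_poly_bound N g
  obtain ⟨C2, hC2⟩ := DD_diff N hN G (fun s => g.eval s) _ t₀ (by positivity) h3
  have hN0 : (0 : ℝ) < N := by exact_mod_cast hN
  have hN1 : (1 : ℝ) ≤ N := by exact_mod_cast hN
  refine ⟨C1 + C2, t₀ / N, by positivity, fun t ht => ?_⟩
  have h4 : |t| ≤ 1 := by
    refine ht.trans ?_
    rw [div_le_one hN0]
    linarith
  have h5 := hC1 t h4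
  have h6 := hC2 t ht
  have h7 : |DD N G t| ≤ |DD N G t - DD N (fun s => g.eval s) t| + |DD N (fun s => g.eval s) t| := by
    have := abs_add_le (DD N G t - DD N (fun s => g.eval s) t) (DD N (fun s => g.eval s) t)
    rwa [sub_add_cancel] at this
  rw [add_mul]
  linarith

end Pool.Agent.Q296.LE

theorem Pool.Agent.Q296.LE.Calc.calc : Pool.Agent.Q66.LE.S_calc := Pool.Agent.Q296.LE.calc'
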