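import Pool.Agent.Q66.LEStm

open Real Set MeasureTheory Filter Topology
open scoped ContDiff

noncomputable section

namespace Pool.Agent.Q296.LE

open Pool.Agent.Q66.LE

/-- iteration of an inequality -/
theorem iter_bound {Ω : Type} (b : Ω → Ω) (r : Ω → ℝ) (q A B : ℝ) (hq0 : 0 ≤ q) (hq : q < 1)
    (hB : ∀ o, |r o| ≤ B) (h : ∀ o, |r o| ≤ q * |r (b o)| + A) (o : Ω) : |r o| ≤ A / (1 - q) := by
  have h1q : 0 < 1 - q := by linarith
  have key : ∀ (n : ℕ) (o : Ω), |r o| ≤ A / (1 - q) + q ^ n * (B + |A / (1 - q)|) := by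
    intro n
    induction n with
    | zero =>
      intro o
      rw [pow_zero, one_mul]
      have := hB o
      have := neg_abs_le (A / (1 - q))
      linarith
    | succ n ih =>
      intro o
      refine (h o).trans ?_
      have h2 := mul_le_mul_of_nonneg_left (ih (b o)) hq0
      have h3 : q * (A / (1 - q) + q ^ n * (B + |A / (1 - q)|)) + A =
          A / (1 - q) + q ^ (n + 1) * (B + |A / (1 - q)|) := by
        have h4 : q * (A / (1 - q)) + A = A / (1 - q) := by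
          field_simp
          ring
        rw [pow_succ]
        linear_combination h4
      linarith
  have h1 : Tendsto (fun n : ℕ => A / (1 - q) + q ^ n * (B + |A / (1 - q)|)) atTop
      (𝓝 (A / (1 - q) + 0 * (B + |A / (1 - q)|))) :=
    ((tendsto_pow_atTop_nhds_zero_of_lt_one hq0 hq).mul_const _).const_add _
  rw [zero_mul, add_zero] at h1
  exact ge_of_tendsto' h1 fun n => key n o

section

variable {Ω : Type} [MeasurableSpace Ω] {ν : Measure Ω} [IsProbabilityMeasure ν]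

theorem intb {f : Ω → ℝ} (hf : Measurable f) {C : ℝ} (h : ∀ o, |f o| ≤ C) : Integrable f ν :=
  Integrable.of_bound hf.aestronglyMeasurable C (Eventually.of_forall h)

theorem intle {f : Ω → ℝ} {C : ℝ} (h : ∀ o, |f o| ≤ C) : |∫ o, f o ∂ν| ≤ C := by
  have := norm_integral_le_of_norm_le_const (μ := ν) (f := f) (C := C) (Eventually.of_forall h)
  simpa using this

end

theorem exp2 : S_exp := by
  intro m hm κ hκ hκ2 hκm
  have h1κ : 0 < 1 - κ ^ 2 := by nlinarith
  have h34 : 3 / 4 ≤ 1 - κ ^ 2 := by nlinarith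
  have hκ4 : κ ^ 4 ≤ 1 / 16 := by
    have : κ ^ 4 ≤ (1 / 2) ^ 4 := by gcongr
    norm_num at this ⊢
    exact this
  have h1κ4 : 0 < 1 - κ ^ 4 := by linarith
  set c₁ : ℝ := -κ / (1 - κ ^ 2) with hc₁
  set c₂ : ℝ := (κ ^ 4 / (1 - κ ^ 2) + κ ^ 2 / 2) / (1 - κ ^ 4) with hc₂
  refine ⟨20, c₁, c₂, by positivity, ?_⟩
  intro Ω _ ν _ b hb v ρ hv hρ hv1 hρ1 ε hε hε1 heq
  have hbm : Measurable b := hb.measurable
  have hmκ : κ * ((m : ℝ) - κ) = 1 := by linarith
  set δ : Ω → ℝ := fun o => ρ o - κ with hδ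
  set η : Ω → ℝ := fun o => ε * v o - δ o with hη
  have hδm : Measurable δ := hρ.sub_const κ
  have hηm : Measurable η := (hv.const_mul ε).sub hδm
  have hρx : ∀ o, ρ o * (1 + κ * η (b o)) = κ := by
    intro o
    have h1 := heq o
    have h2 : 1 + κ * η (b o) = κ * ((m : ℝ) + ε * v (b o) - ρ (b o)) := by
      simp only [hη, hδ]
      linear_combination -hmκ
    rw [h2]
    linear_combination κ * h1
  have hδe : ∀ o, δ o = κ * ρ o * (δ (b o) - ε * v (b o)) := by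
    intro o
    have h1 := hρx o
    simp only [hη, hδ] at h1 ⊢
    linear_combination h1
  have hδb : ∀ o, |δ o| ≤ ε / 3 := by
    intro o
    have h1 := iter_bound b δ (1 / 4) (ε / 4) 1 (by norm_num) (by norm_num) (fun o => by
      have h2 := hρ1 o
      have h3 := abs_sub (ρ o) κ
      rw [abs_of_pos hκ] at h3
      exact h3.trans (by linarith)) (fun o => by
      rw [hδe o, abs_mul, abs_mul, abs_of_pos hκ]
      have h2 : |δ (b o) - ε * v (b o)| ≤ |δ (b o)| + ε := by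
        refine (abs_sub _ _).trans ?_
        rw [abs_mul, abs_of_nonneg hε]
        have := hv1 (b o)
        nlinarith
      have h3 := hρ1 o
      calc κ * |ρ o| * |δ (b o) - ε * v (b o)| ≤ 1 / 2 * (1 / 2) * (|δ (b o)| + ε) := by gcongr
        _ = 1 / 4 * |δ (b o)| + ε / 4 := by ring) o
    refine h1.trans (le_of_eq ?_)
    ring
  have hηb : ∀ o, |η o| ≤ 4 / 3 * ε := by
    intro o
    have h1 := abs_sub (ε * v o) (δ o)
    rw [abs_mul, abs_of_nonneg hε] at h1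
    have h2 := hv1 o
    have h3 := hδb o
    have h4 : ε * |v o| ≤ ε * 1 := by gcongr
    have h5 : |η o| ≤ ε * |v o| + |δ o| := h1
    linarith
  -- the small quantity `x`
  set x : Ω → ℝ := fun o => κ * η (b o) with hx
  have hxm : Measurable x := (hηm.comp hbm).const_mul κ
  have hxb : ∀ o, |x o| ≤ 2 / 3 * ε := by
    intro o
    simp only [hx]
    rw [abs_mul, abs_of_pos hκ]
    have h1 := hηb (b o)
    calc κ * |η (b o)| ≤ 1 / 2 * (4 / 3 * ε) := by gcongr
      _ = 2 / 3 * ε := by ring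
  have hx6 : ∀ o, |x o| ≤ 1 / 6 := fun o => (hxb o).trans (by linarith)
  have hx56 : ∀ o, 5 / 6 ≤ 1 + x o := by
    intro o
    have := (abs_le.1 (hx6 o)).1
    linarith
  have hρe : ∀ o, ρ o = κ / (1 + x o) := by
    intro o
    have h1 := hx56 o
    rw [eq_div_iff (by linarith)]
    exact hρx o
  have hx3 : ∀ o, |x o| ^ 3 ≤ 8 / 27 * ε ^ 3 := by
    intro o
    calc |x o| ^ 3 ≤ (2 / 3 * ε) ^ 3 := by
          have := hxb o
          gcongr
      _ = 8 / 27 * ε ^ 3 := by ring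
  have hx2 : ∀ o, |x o| ^ 2 ≤ 4 / 9 * ε ^ 2 := by
    intro o
    calc |x o| ^ 2 ≤ (2 / 3 * ε) ^ 2 := by
          have := hxb o
          gcongr
      _ = 4 / 9 * ε ^ 2 := by ring
  have hε3 : 0 ≤ ε ^ 3 := by positivity
  have hε2 : 0 ≤ ε ^ 2 := by positivity
  have hE1 : ∀ o, |Real.log (ρ o) - (Real.log κ - x o + x o ^ 2 / 2)| ≤ ε ^ 3 := by
    intro o
    have h1 := hx56 o
    have h2 := hx6 o
    rw [hρe o, Real.log_div hκ.ne' (by linarith)]
    have h3 := Real.abs_log_sub_add_sum_range_le (x := -x o) (by rw [abs_neg]; linarith) 2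
    rw [abs_neg, sub_neg_eq_add] at h3
    have e1 : Real.log κ - Real.log (1 + x o) - (Real.log κ - x o + x o ^ 2 / 2) =
        -((∑ i ∈ Finset.range 2, (-x o) ^ (i + 1) / (i + 1)) + Real.log (1 + x o)) := by
      simp only [Finset.sum_range_succ, Finset.sum_range_zero]
      push_cast
      ring
    rw [e1, abs_neg]
    refine h3.trans ?_
    have h4 : |x o| ^ (2 + 1) / (1 - |x o|) ≤ |x o| ^ 3 * (6 / 5) := by
      rw [div_le_iff₀ (by linarith)]
      have h5 : 0 ≤ |x o| ^ 3 := by positivity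
      have h6 : |x o| ^ (2 + 1) = |x o| ^ 3 := rfl
      rw [h6]
      nlinarith
    have := hx3 o
    linarith
  have hE2 : ∀ o, |δ o - (-κ * x o + κ * x o ^ 2)| ≤ ε ^ 3 := by
    intro o
    have h1 := hx56 o
    have h2 : δ o - (-κ * x o + κ * x o ^ 2) = -κ * (x o ^ 3 / (1 + x o)) := by
      simp only [hδ]
      rw [hρe o]
      have : 1 + x o ≠ 0 := by linarith
      field_simp
      ring
    rw [h2, abs_mul, abs_neg, abs_of_pos hκ, abs_div, abs_pow, abs_of_pos (by linarith : 0 < 1 + x o)]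
    have h3 : |x o| ^ 3 / (1 + x o) ≤ |x o| ^ 3 * (6 / 5) := by
      rw [div_le_iff₀ (by linarith)]
      have h5 : 0 ≤ |x o| ^ 3 := by positivity
      nlinarith
    have h4 := hx3 o
    calc κ * (|x o| ^ 3 / (1 + x o)) ≤ 1 / 2 * (|x o| ^ 3 * (6 / 5)) := by gcongr
      _ ≤ ε ^ 3 := by linarith
  have hE3 : ∀ o, |δ o + κ * x o| ≤ ε ^ 2 := by
    intro o
    have h1 := hx56 o
    have h2 : δ o + κ * x o = κ * (x o ^ 2 / (1 + x o)) := by
      simp only [hδ]
      rw [hρe o]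
      have : 1 + x o ≠ 0 := by linarith
      field_simp
      ring
    rw [h2, abs_mul, abs_of_pos hκ, abs_div, abs_pow, abs_of_pos (by linarith : 0 < 1 + x o)]
    have h3 : |x o| ^ 2 / (1 + x o) ≤ |x o| ^ 2 * (6 / 5) := by
      rw [div_le_iff₀ (by linarith)]
      have h5 : 0 ≤ |x o| ^ 2 := by positivity
      nlinarith
    have h4 := hx2 o
    calc κ * (|x o| ^ 2 / (1 + x o)) ≤ 1 / 2 * (|x o| ^ 2 * (6 / 5)) := by gcongr
      _ ≤ ε ^ 2 := by linarith
  -- integrals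
  have hinv : ∀ (f : Ω → ℝ), Measurable f → ∫ o, f (b o) ∂ν = ∫ o, f o ∂ν := by
    intro f hf
    have h1 := integral_map (μ := ν) hbm.aemeasurable (f := f)
      (hf.aestronglyMeasurable (μ := ν.map b))
    rw [hb.map_eq] at h1
    exact h1.symm
  have iη : Integrable η ν := intb hηm hηb
  have iδ : Integrable δ ν := intb hδm hδb
  have iv : Integrable v ν := intb hv hv1
  have ix : Integrable x ν := intb hxm hx6
  have ix2 : Integrable (fun o => x o ^ 2) ν := intb (hxm.pow_const 2) (C := 1) (fun o => by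
    rw [abs_pow]
    have := hx6 o
    have h0 := abs_nonneg (x o)
    nlinarith)
  have hIx : ∫ o, x o ∂ν = κ * ∫ o, η o ∂ν := by
    simp only [hx]
    rw [integral_const_mul, hinv η hηm]
  have hIx2 : ∫ o, x o ^ 2 ∂ν = κ ^ 2 * ∫ o, η o ^ 2 ∂ν := by
    have h1 : ∀ o, x o ^ 2 = κ ^ 2 * (fun o => η o ^ 2) (b o) := by
      intro o
      simp only [hx]
      ring
    simp only [h1]
    rw [integral_const_mul, hinv _ (hηm.pow_const 2)]
  have hIη : ∫ o, η o ∂ν = ε * ∫ o, v o ∂ν - ∫ o, δ o ∂ν := by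
    simp only [hη]
    rw [integral_sub (iv.const_mul ε) iδ, integral_const_mul]
  have hlogm : Measurable fun o => Real.log (ρ o) := Real.measurable_log.comp hρ
  have ilog : Integrable (fun o => Real.log (ρ o)) ν := by
    refine intb hlogm (C := |Real.log κ| + 2) (fun o => ?_)
    have h1 := hE1 o
    have h2 := hx6 o
    have h3 : ε ^ 3 ≤ 1 := by
      have : ε ^ 3 ≤ (1 / 4) ^ 3 := by gcongr
      norm_num at this ⊢
      linarith
    have h4 := abs_add_le (Real.log (ρ o) - (Real.log κ - x o + x o ^ 2 / 2))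
      (Real.log κ - x o + x o ^ 2 / 2)
    rw [sub_add_cancel] at h4
    have h5 : |Real.log κ - x o + x o ^ 2 / 2| ≤ |Real.log κ| + 1 := by
      refine (abs_add_le _ _).trans ?_
      have h6 := abs_sub (Real.log κ) (x o)
      have h7 : |x o ^ 2 / 2| ≤ 1 / 2 := by
        rw [abs_div, abs_pow, abs_two]
        have h0 := abs_nonneg (x o)
        nlinarith
      linarith
    linarith
  have hJ1 : |∫ o, Real.log (ρ o) ∂ν - (Real.log κ - κ * ∫ o, η o ∂ν +
      κ ^ 2 * (∫ o, η o ^ 2 ∂ν) / 2)| ≤ ε ^ 3 := by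
    have h1 := intle (ν := ν) hE1
    have h2 : ∫ o, (Real.log (ρ o) - (Real.log κ - x o + x o ^ 2 / 2)) ∂ν =
        ∫ o, Real.log (ρ o) ∂ν - (Real.log κ - κ * ∫ o, η o ∂ν +
      κ ^ 2 * (∫ o, η o ^ 2 ∂ν) / 2) := by
      have i1 : Integrable (fun o => Real.log κ - x o) ν := (integrable_const _).sub ix
      have i2 : Integrable (fun o => Real.log κ - x o + x o ^ 2 / 2) ν :=
        i1.add (ix2.div_const 2)
      rw [integral_sub ilog i2, integral_add i1 (ix2.div_const 2),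
        integral_sub (integrable_const _) ix, integral_div, hIx, hIx2]
      simp
    rwa [h2] at h1
  have hJ2 : |∫ o, δ o ∂ν + κ ^ 2 * ∫ o, η o ∂ν - κ ^ 3 * ∫ o, η o ^ 2 ∂ν| ≤ ε ^ 3 := by
    have h1 := intle (ν := ν) hE2
    have h2 : ∫ o, (δ o - (-κ * x o + κ * x o ^ 2)) ∂ν =
        ∫ o, δ o ∂ν + κ ^ 2 * ∫ o, η o ∂ν - κ ^ 3 * ∫ o, η o ^ 2 ∂ν := by
      have i2 : Integrable (fun o => -κ * x o + κ * x o ^ 2) ν :=
        (ix.const_mul (-κ)).add (ix2.const_mul κ)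
      have a1 : ∫ o, -κ * x o ∂ν = -κ * ∫ o, x o ∂ν := integral_const_mul _ _
      have a2 : ∫ o, κ * x o ^ 2 ∂ν = κ * ∫ o, x o ^ 2 ∂ν := integral_const_mul _ _
      rw [integral_sub iδ i2, integral_add (ix.const_mul _) (ix2.const_mul κ), a1, a2, hIx, hIx2]
      ring
    rwa [h2] at h1
  -- the series `Γ`
  have hκq : κ ^ 2 < 1 := by linarith
  have hgeo : Summable fun k : ℕ => κ ^ (2 * k) := by
    have h := summable_geometric_of_lt_one (sq_nonneg κ) hκq
    refine h.congr fun k => ?_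
    rw [pow_mul]
  have htsum : ∑' k : ℕ, κ ^ (2 * k) = (1 - κ ^ 2)⁻¹ := by
    rw [← tsum_geometric_of_lt_one (sq_nonneg κ) hκq]
    exact tsum_congr fun k => pow_mul κ 2 k
  have hsm : ∀ o, Summable fun k : ℕ => κ ^ (2 * k) * v (b^[k] o) := by
    intro o
    refine Summable.of_norm_bounded hgeo fun k => ?_
    rw [norm_mul, Real.norm_of_nonneg (by positivity), Real.norm_eq_abs]
    have := hv1 (b^[k] o)
    calc κ ^ (2 * k) * |v (b^[k] o)| ≤ κ ^ (2 * k) * 1 := by gcongr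
      _ = _ := mul_one _
  set Γ : Ω → ℝ := fun o => ∑' k : ℕ, κ ^ (2 * k) * v (b^[k] o) with hΓ
  have hbk : ∀ k : ℕ, Measurable (b^[k]) := fun k => hbm.iterate k
  have hΓm : Measurable Γ := by
    refine measurable_of_tendsto_metrizable (f := fun (n : ℕ) (o : Ω) =>
      ∑ k ∈ Finset.range n, κ ^ (2 * k) * v (b^[k] o)) (fun n => ?_) ?_
    · exact Finset.measurable_sum _ fun k _ => (hv.comp (hbk k)).const_mul _
    · rw [tendsto_pi_nhds]
      intro o
      exact (hsm o).hasSum.tendsto_sum_nat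
  have hΓrec : ∀ o, Γ o = v o + κ ^ 2 * Γ (b o) := by
    intro o
    simp only [hΓ]
    rw [(hsm o).tsum_eq_zero_add, ← tsum_mul_left]
    simp only [mul_zero, pow_zero, one_mul, Function.iterate_zero, id_eq]
    congr 1
    refine tsum_congr fun k => ?_
    rw [Function.iterate_succ_apply]
    ring
  have hΓb : ∀ o, |Γ o| ≤ 4 / 3 := by
    intro o
    have h1 : |Γ o| ≤ ∑' k : ℕ, κ ^ (2 * k) := by
      have h2 : Summable fun k : ℕ => ‖κ ^ (2 * k) * v (b^[k] o)‖ := (hsm o).norm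
      refine (norm_tsum_le_tsum_norm h2).trans (h2.tsum_le_tsum (fun k => ?_) hgeo)
      rw [norm_mul, Real.norm_of_nonneg (by positivity), Real.norm_eq_abs]
      have := hv1 (b^[k] o)
      calc κ ^ (2 * k) * |v (b^[k] o)| ≤ κ ^ (2 * k) * 1 := by gcongr
        _ = _ := mul_one _
    rw [htsum] at h1
    refine h1.trans ?_
    rw [inv_le_comm₀ h1κ (by norm_num)]
    norm_num
    linarith
  -- `η = ε Γ + O(ε²)`
  set r : Ω → ℝ := fun o => η o - ε * Γ o with hr
  have hrm : Measurable r := hηm.sub (hΓm.const_mul ε)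
  have hrb : ∀ o, |r o| ≤ 4 / 3 * ε ^ 2 := by
    intro o
    have h1 := iter_bound b r (1 / 4) (ε ^ 2) 4 (by norm_num) (by norm_num) (fun o => by
      simp only [hr]
      refine (abs_sub _ _).trans ?_
      rw [abs_mul, abs_of_nonneg hε]
      have h2 := hηb o
      have h3 := hΓb o
      have h4 : ε * |Γ o| ≤ 1 / 4 * (4 / 3) := by gcongr
      linarith) (fun o => by
      have h2 : r o = κ ^ 2 * r (b o) - (δ o + κ * x o) := by
        simp only [hr, hx, hη]
        rw [hΓrec o]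
        ring
      rw [h2]
      refine (abs_sub _ _).trans ?_
      rw [abs_mul, abs_of_nonneg (sq_nonneg κ)]
      have h3 := hE3 o
      have h4 : κ ^ 2 * |r (b o)| ≤ 1 / 4 * |r (b o)| := by
        have : κ ^ 2 ≤ 1 / 4 := by linarith
        gcongr
      linarith) o
    refine h1.trans (le_of_eq ?_)
    ring
  have iΓ : Integrable Γ ν := intb hΓm hΓb
  have iΓ2 : Integrable (fun o => Γ o ^ 2) ν := intb (hΓm.pow_const 2) (C := 16 / 9) (fun o => by
    rw [abs_pow]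
    have := hΓb o
    calc |Γ o| ^ 2 ≤ (4 / 3) ^ 2 := by gcongr
      _ = 16 / 9 := by norm_num)
  have iv2 : Integrable (fun o => v o ^ 2) ν := intb (hv.pow_const 2) (C := 1) (fun o => by
    rw [abs_pow]
    exact pow_le_one₀ (abs_nonneg _) (hv1 o))
  have ivΓ : Integrable (fun o => v o * Γ (b o)) ν :=
    intb (hv.mul (hΓm.comp hbm)) (C := 4 / 3) (fun o => by
      rw [abs_mul]
      have := hΓb (b o)
      have := hv1 o
      calc |v o| * |Γ (b o)| ≤ 1 * (4 / 3) := by gcongr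
        _ = 4 / 3 := one_mul _)
  have iη2 : Integrable (fun o => η o ^ 2) ν := intb (hηm.pow_const 2) (C := (4 / 3 * ε) ^ 2)
    (fun o => by
      rw [abs_pow]
      have := hηb o
      gcongr)
  have hJ3 : |∫ o, η o ^ 2 ∂ν - ε ^ 2 * ∫ o, Γ o ^ 2 ∂ν| ≤ 5 * ε ^ 3 := by
    have h1 : ∀ o, |η o ^ 2 - ε ^ 2 * Γ o ^ 2| ≤ 5 * ε ^ 3 := by
      intro o
      have h2 : η o ^ 2 - ε ^ 2 * Γ o ^ 2 = 2 * (ε * Γ o) * r o + r o ^ 2 := by
        simp only [hr]
        ring
      rw [h2]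
      refine (abs_add_le _ _).trans ?_
      rw [abs_mul, abs_mul, abs_mul, abs_pow, abs_of_nonneg hε, abs_two]
      have h3 := hrb o
      have h4 := hΓb o
      have h5 : 2 * (ε * |Γ o|) * |r o| ≤ 2 * (ε * (4 / 3)) * (4 / 3 * ε ^ 2) := by gcongr
      have h6 : |r o| ^ 2 ≤ (4 / 3 * ε ^ 2) ^ 2 := by gcongr
      have h7 : (4 / 3 * ε ^ 2) ^ 2 ≤ 16 / 9 * (1 / 4) * ε ^ 3 := by
        have e : (4 / 3 * ε ^ 2) ^ 2 = 16 / 9 * ε * ε ^ 3 := by ring
        rw [e]
        gcongr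
      have e : 2 * (ε * (4 / 3)) * (4 / 3 * ε ^ 2) = 32 / 9 * ε ^ 3 := by ring
      linarith
    have h2 := intle (ν := ν) h1
    rwa [integral_sub iη2 (iΓ2.const_mul _), integral_const_mul] at h2
  -- the square of `Γ`
  have hJ4 : (1 - κ ^ 4) * ∫ o, Γ o ^ 2 ∂ν = ∫ o, v o ^ 2 ∂ν + 2 * (κ ^ 2 *
      ∫ o, v o * Γ (b o) ∂ν) := by
    have h1 : ∀ o, Γ o ^ 2 = v o ^ 2 + (2 * κ ^ 2) * (v o * Γ (b o)) +
        κ ^ 4 * (fun o => Γ o ^ 2) (b o) := by
      intro o
      conv_lhs => rw [hΓrec o]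
      ring
    have iΓb : Integrable (fun o => (fun o => Γ o ^ 2) (b o)) ν :=
      intb ((hΓm.pow_const 2).comp hbm) (C := 16 / 9) (fun o => by
        change |Γ (b o) ^ 2| ≤ _
        rw [abs_pow]
        have := hΓb (b o)
        calc |Γ (b o)| ^ 2 ≤ (4 / 3) ^ 2 := by gcongr
          _ = 16 / 9 := by norm_num)
    have h2 : ∫ o, Γ o ^ 2 ∂ν = ∫ o, (v o ^ 2 + (2 * κ ^ 2) * (v o * Γ (b o)) +
        κ ^ 4 * (fun o => Γ o ^ 2) (b o)) ∂ν := integral_congr_ae (Eventually.of_forall h1)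
    have i2 : Integrable (fun o => v o ^ 2 + (2 * κ ^ 2) * (v o * Γ (b o))) ν :=
      iv2.add (ivΓ.const_mul (2 * κ ^ 2))
    rw [integral_add i2 (iΓb.const_mul _), integral_add iv2 (ivΓ.const_mul _), integral_const_mul, integral_const_mul,
      hinv _ (hΓm.pow_const 2)] at h2
    linear_combination h2
  have hJ5 : κ ^ 2 * ∫ o, v o * Γ (b o) ∂ν =
      ∑' k : ℕ, κ ^ (2 * (k + 1)) * ∫ o, v o * v (b^[k + 1] o) ∂ν := by
    have h1 : ∀ o, κ ^ 2 * (v o * Γ (b o)) =
        ∑' k : ℕ, κ ^ (2 * (k + 1)) * (v o * v (b^[k + 1] o)) := by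
      intro o
      simp only [hΓ]
      rw [← mul_assoc, ← tsum_mul_left]
      refine tsum_congr fun k => ?_
      rw [Function.iterate_succ_apply]
      ring
    have hF : ∀ k : ℕ, Measurable fun o => κ ^ (2 * (k + 1)) * (v o * v (b^[k + 1] o)) :=
      fun k => (hv.mul (hv.comp (hbk (k + 1)))).const_mul _
    have hFb : ∀ (k : ℕ) (o : Ω), |κ ^ (2 * (k + 1)) * (v o * v (b^[k + 1] o))| ≤
        κ ^ (2 * (k + 1)) := by
      intro k o
      rw [abs_mul, abs_mul, abs_of_nonneg (by positivity)]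
      have := hv1 o
      have := hv1 (b^[k + 1] o)
      calc κ ^ (2 * (k + 1)) * (|v o| * |v (b^[k + 1] o)|) ≤ κ ^ (2 * (k + 1)) * (1 * 1) := by
            gcongr
        _ = _ := by ring
    have hgeo' : Summable fun k : ℕ => κ ^ (2 * (k + 1)) :=
      (summable_nat_add_iff (f := fun k : ℕ => κ ^ (2 * k)) 1).2 hgeo
    have h2 := integral_tsum_of_summable_integral_norm (μ := ν)
      (F := fun (k : ℕ) (o : Ω) => κ ^ (2 * (k + 1)) * (v o * v (b^[k + 1] o)))
      (fun k => intb (hF k) (hFb k)) (by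
        refine Summable.of_nonneg_of_le (fun k => integral_nonneg fun o => norm_nonneg _)
          (fun k => ?_) hgeo'
        have h3 : |∫ o, ‖κ ^ (2 * (k + 1)) * (v o * v (b^[k + 1] o))‖ ∂ν| ≤
            κ ^ (2 * (k + 1)) := intle (fun o => by
          rw [Real.norm_eq_abs, abs_abs]
          exact hFb k o)
        exact (le_abs_self _).trans h3)
    rw [← integral_const_mul, integral_congr_ae (Eventually.of_forall h1), ← h2]
    exact tsum_congr fun k => integral_const_mul _ _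
  rw [hJ5] at hJ4
  set Q : ℝ := ∫ o, v o ^ 2 ∂ν + 2 * ∑' k : ℕ, κ ^ (2 * (k + 1)) *
    ∫ o, v o * v (b^[k + 1] o) ∂ν with hQ
  set Iη : ℝ := ∫ o, η o ∂ν
  set I2 : ℝ := ∫ o, η o ^ 2 ∂ν
  set Iδ : ℝ := ∫ o, δ o ∂ν
  set Iv : ℝ := ∫ o, v o ∂ν
  set IΓ : ℝ := ∫ o, Γ o ^ 2 ∂ν
  set IL : ℝ := ∫ o, Real.log (ρ o) ∂ν
  -- final computation
  have e1 : IL - (Real.log κ + c₁ * ε * Iv + c₂ * ε ^ 2 * Q) =
      (IL - (Real.log κ - κ * Iη + κ ^ 2 * I2 / 2)) +
      κ / (1 - κ ^ 2) * (Iδ + κ ^ 2 * Iη - κ ^ 3 * I2) +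
      (κ ^ 4 / (1 - κ ^ 2) + κ ^ 2 / 2) * (I2 - ε ^ 2 * IΓ) := by
    rw [hc₁, hc₂, ← hJ4]
    have hd1 : 1 - κ ^ 2 ≠ 0 := h1κ.ne'
    have hd2 : 1 - κ ^ 4 ≠ 0 := h1κ4.ne'
    field_simp
    rw [show Iη = ε * Iv - Iδ from hIη]
    ring
  rw [e1]
  refine (abs_add_le _ _).trans ?_
  have h2 := abs_add_le (IL - (Real.log κ - κ * Iη + κ ^ 2 * I2 / 2))
    (κ / (1 - κ ^ 2) * (Iδ + κ ^ 2 * Iη - κ ^ 3 * I2))
  have h3 : |κ / (1 - κ ^ 2) * (Iδ + κ ^ 2 * Iη - κ ^ 3 * I2)| ≤ 1 * ε ^ 3 := by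
    rw [abs_mul]
    have h4 : |κ / (1 - κ ^ 2)| ≤ 1 := by
      rw [abs_of_pos (by positivity), div_le_one h1κ]
      linarith
    gcongr
  have h4 : |(κ ^ 4 / (1 - κ ^ 2) + κ ^ 2 / 2) * (I2 - ε ^ 2 * IΓ)| ≤ 1 * (5 * ε ^ 3) := by
    rw [abs_mul]
    have h5 : |κ ^ 4 / (1 - κ ^ 2) + κ ^ 2 / 2| ≤ 1 := by
      rw [abs_of_pos (by positivity)]
      have h6 : κ ^ 4 / (1 - κ ^ 2) ≤ 1 / 2 := by
        rw [div_le_iff₀ h1κ]
        linarith
      linarith
    gcongr
  linarith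

end Pool.Agent.Q296.LE
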