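import Pool.Agent.Q66.LEStm

open Real Set MeasureTheory Filter Topology
open scoped ContDiff

noncomputable section

namespace Pool.Agent.Q296.LE

open Pool.Agent.Q66.LE

/-- a contraction of the unit ball of a complete normed space has a fixed point -/
theorem fix {E : Type*} [NormedAddCommGroup E] [CompleteSpace E] (T : E → E) (k : ℝ)
    (hk0 : 0 ≤ k) (hk : k < 1) (hb : ∀ s, ‖s‖ ≤ 1 → ‖T s‖ ≤ 1)
    (hl : ∀ s s', ‖s‖ ≤ 1 → ‖s'‖ ≤ 1 → ‖T s - T s'‖ ≤ k * ‖s - s'‖) : ∃ s, ‖s‖ ≤ 1 ∧ T s = s := by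
  let U := Metric.closedBall (0 : E) 1
  have hmem : ∀ s, s ∈ U ↔ ‖s‖ ≤ 1 := fun s => mem_closedBall_zero_iff
  have hU : IsClosed U := Metric.isClosed_closedBall
  have : CompleteSpace U := hU.completeSpace_coe
  have : Nonempty U := ⟨⟨0, (hmem 0).2 (by simp)⟩⟩
  let f : U → U := fun s => ⟨T s, (hmem _).2 (hb _ ((hmem _).1 s.2))⟩
  have hf : ContractingWith ⟨k, hk0⟩ f := by
    refine ⟨by exact_mod_cast hk, LipschitzWith.of_dist_le_mul fun s s' => ?_⟩
    rw [Subtype.dist_eq, Subtype.dist_eq, dist_eq_norm, dist_eq_norm]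
    exact hl _ _ ((hmem _).1 s.2) ((hmem _).1 s'.2)
  obtain ⟨s, hs⟩ : ∃ s : U, Function.IsFixedPt f s := ⟨_, hf.fixedPoint_isFixedPt⟩
  exact ⟨s, (hmem _).1 s.2, congrArg Subtype.val hs⟩

theorem sig : S_sig := by
  intro X _ _ φ A B Γ Δ a e D hA hB hΓ hΔ ha he hD hA' hB' hΓ' hΔ' hlt
  have hΔ0 : ∀ x, Δ x ≠ 0 := by
    intro x h
    have := hΔ' x
    rw [h, abs_zero] at this
    have h2 : 0 < 1 / D := by positivity
    linarith
  have hinv : ∀ x, |(Δ x)⁻¹| ≤ D := by
    intro x
    have h1 : 0 < |Δ x| := abs_pos.2 (hΔ0 x)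
    rw [abs_inv, inv_le_comm₀ h1 hD, ← one_div]
    exact hΔ' x
  let T : C(X, ℝ) → C(X, ℝ) := fun s =>
    ⟨fun x => (s (φ x) * (A x + B x * s x) - Γ x) * (Δ x)⁻¹, by
      have h1 : Continuous fun x => s (φ x) := s.continuous.comp φ.continuous
      have h2 : Continuous fun x => (Δ x)⁻¹ := hΔ.inv₀ hΔ0
      exact ((h1.mul (hA.add (hB.mul s.continuous))).sub hΓ).mul h2⟩
  have hk0 : 0 ≤ D * (a + 2 * e) := by positivity
  have hsx : ∀ (s : C(X, ℝ)) (x : X), |s x| ≤ ‖s‖ := fun s x => s.norm_coe_le_norm x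
  have hbd : ∀ s : C(X, ℝ), ‖s‖ ≤ 1 → ∀ x, |T s x| ≤ D * (‖s‖ * (a + e) + e) := by
    intro s hs x
    change |(s (φ x) * (A x + B x * s x) - Γ x) * (Δ x)⁻¹| ≤ _
    rw [abs_mul, mul_comm]
    have h1 : |s (φ x) * (A x + B x * s x) - Γ x| ≤ ‖s‖ * (a + e) + e := by
      refine (abs_sub _ _).trans ?_
      rw [abs_mul]
      have h2 : |A x + B x * s x| ≤ a + e := by
        refine (abs_add_le _ _).trans ?_
        rw [abs_mul]
        have h3 : |B x| * |s x| ≤ e * 1 := by
          have := hB' x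
          have := (hsx s x).trans hs
          gcongr
        have := hA' x
        linarith
      have h3 : |s (φ x)| * |A x + B x * s x| ≤ ‖s‖ * (a + e) := by
        have := hsx s (φ x)
        gcongr
      have := hΓ' x
      linarith
    have h2 := hinv x
    gcongr
  obtain ⟨σ, hσ1, hσ2⟩ := fix T (D * (a + 2 * e)) hk0 hlt (by
      intro s hs
      rw [ContinuousMap.norm_le _ zero_le_one]
      intro x
      refine (hbd s hs x).trans ?_
      have h1 : ‖s‖ * (a + e) + e ≤ 1 * (a + e) + e := by gcongr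
      have h2 : D * (‖s‖ * (a + e) + e) ≤ D * (1 * (a + e) + e) := by gcongr
      linarith) (by
      intro s s' hs hs'
      rw [ContinuousMap.norm_le _ (by positivity)]
      intro x
      change |(s (φ x) * (A x + B x * s x) - Γ x) * (Δ x)⁻¹ -
        (s' (φ x) * (A x + B x * s' x) - Γ x) * (Δ x)⁻¹| ≤ _
      have e1 : (s (φ x) * (A x + B x * s x) - Γ x) * (Δ x)⁻¹ -
        (s' (φ x) * (A x + B x * s' x) - Γ x) * (Δ x)⁻¹ =
        (Δ x)⁻¹ * ((s (φ x) - s' (φ x)) * (A x + B x * s x) +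
          s' (φ x) * (B x * (s x - s' x))) := by ring
      rw [e1, abs_mul, mul_assoc]
      have hd : ∀ y, |s y - s' y| ≤ ‖s - s'‖ := fun y => hsx (s - s') y
      have h1 : |(s (φ x) - s' (φ x)) * (A x + B x * s x) + s' (φ x) * (B x * (s x - s' x))| ≤
          (a + 2 * e) * ‖s - s'‖ := by
        refine (abs_add_le _ _).trans ?_
        rw [abs_mul, abs_mul, abs_mul]
        have h2 : |A x + B x * s x| ≤ a + e := by
          refine (abs_add_le _ _).trans ?_
          rw [abs_mul]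
          have h3 : |B x| * |s x| ≤ e * 1 := by
            have := hB' x
            have := (hsx s x).trans hs
            gcongr
          have := hA' x
          linarith
        have h3 : |s (φ x) - s' (φ x)| * |A x + B x * s x| ≤ ‖s - s'‖ * (a + e) := by
          have := hd (φ x)
          gcongr
        have h4 : |s' (φ x)| * (|B x| * |s x - s' x|) ≤ 1 * (e * ‖s - s'‖) := by
          have := (hsx s' (φ x)).trans hs'
          have := hB' x
          have := hd x
          gcongr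
        linarith
      have h2 := hinv x
      gcongr)
  have hσx : ∀ x, (σ (φ x) * (A x + B x * σ x) - Γ x) * (Δ x)⁻¹ = σ x := by
    intro x
    exact congrArg (fun s : C(X, ℝ) => s x) hσ2
  refine ⟨σ, σ.continuous, fun x => (hsx σ x).trans hσ1, fun x => ?_, fun x => ?_⟩
  · have h1 : ‖σ‖ ≤ D * (‖σ‖ * (a + e) + e) := by
      have h2 : ‖σ‖ = ‖T σ‖ := by rw [hσ2]
      rw [h2, ContinuousMap.norm_le _ (by positivity), ← h2]
      exact hbd σ hσ1
    have h2 := hsx σ x
    have h3 : 0 ≤ 1 - D * (a + e) := by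
      have : 0 ≤ D * e := by positivity
      linarith
    have h4 : |σ x| * (1 - D * (a + e)) ≤ ‖σ‖ * (1 - D * (a + e)) := by gcongr
    linarith
  · have h1 := hσx x
    have h2 := hΔ0 x
    field_simp at h1
    linarith

theorem tht : S_tht := by
  intro X _ _ φ W _ _ _ A B Γ Δ Δi a e D hA hB hΓ hΔ hΔi ha he hD hA' hB' hΓ' hΔi' hr hl hlt
  let p : X → X := φ.symm
  have hp : Continuous p := φ.symm.continuous
  let T : C(X, W →L[ℝ] ℝ) → C(X, W →L[ℝ] ℝ) := fun θ =>
    ⟨fun q => ((A (p q) - θ q (Γ (p q))) • θ (p q) + B (p q)).comp (Δi (p q)), by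
      have h1 : Continuous fun q => θ (p q) := θ.continuous.comp hp
      have h2 : Continuous fun q => θ q (Γ (p q)) := θ.continuous.clm_apply (hΓ.comp hp)
      have h3 : Continuous fun q => (A (p q) - θ q (Γ (p q))) • θ (p q) + B (p q) :=
        (((hA.comp hp).sub h2).smul h1).add (hB.comp hp)
      exact h3.clm_comp (hΔi.comp hp)⟩
  have hk0 : 0 ≤ D * (a + 2 * e) := by positivity
  have hsx : ∀ (s : C(X, W →L[ℝ] ℝ)) (x : X), ‖s x‖ ≤ ‖s‖ := fun s x => s.norm_coe_le_norm x
  have hAq : ∀ (s : C(X, W →L[ℝ] ℝ)), ‖s‖ ≤ 1 → ∀ q, |A (p q) - s q (Γ (p q))| ≤ a + e := by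
    intro s hs q
    refine (abs_sub _ _).trans ?_
    have h1 : |s q (Γ (p q))| ≤ 1 * e := by
      refine ((s q).le_opNorm _).trans ?_
      have := (hsx s q).trans hs
      have := hΓ' (p q)
      gcongr
    have := hA' (p q)
    linarith
  have hbd : ∀ s : C(X, W →L[ℝ] ℝ), ‖s‖ ≤ 1 → ∀ q, ‖T s q‖ ≤ D * (a + 2 * e) := by
    intro s hs q
    change ‖((A (p q) - s q (Γ (p q))) • s (p q) + B (p q)).comp (Δi (p q))‖ ≤ _
    refine (ContinuousLinearMap.opNorm_comp_le _ _).trans ?_
    rw [mul_comm]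
    have h1 : ‖(A (p q) - s q (Γ (p q))) • s (p q) + B (p q)‖ ≤ a + 2 * e := by
      refine (norm_add_le _ _).trans ?_
      rw [norm_smul, Real.norm_eq_abs]
      have h2 : |A (p q) - s q (Γ (p q))| * ‖s (p q)‖ ≤ (a + e) * 1 := by
        have := hAq s hs q
        have := (hsx s (p q)).trans hs
        gcongr
      have := hB' (p q)
      linarith
    have h2 := hΔi' (p q)
    gcongr
  obtain ⟨θ, hθ1, hθ2⟩ := fix T (D * (a + 2 * e)) hk0 hlt (by
      intro s hs
      rw [ContinuousMap.norm_le _ zero_le_one]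
      intro x
      exact (hbd s hs x).trans hlt.le) (by
      intro s s' hs hs'
      rw [ContinuousMap.norm_le _ (by positivity)]
      intro q
      change ‖((A (p q) - s q (Γ (p q))) • s (p q) + B (p q)).comp (Δi (p q)) -
        ((A (p q) - s' q (Γ (p q))) • s' (p q) + B (p q)).comp (Δi (p q))‖ ≤ _
      rw [← ContinuousLinearMap.sub_comp]
      refine (ContinuousLinearMap.opNorm_comp_le _ _).trans ?_
      have e1 : (A (p q) - s q (Γ (p q))) • s (p q) + B (p q) -
          ((A (p q) - s' q (Γ (p q))) • s' (p q) + B (p q)) =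
          (A (p q) - s q (Γ (p q))) • (s (p q) - s' (p q)) -
            ((s q - s' q) (Γ (p q))) • s' (p q) := by
        rw [smul_sub, sub_apply]
        module
      rw [e1, mul_comm, mul_assoc]
      have hd : ∀ y, ‖s y - s' y‖ ≤ ‖s - s'‖ := fun y => hsx (s - s') y
      have h1 : ‖(A (p q) - s q (Γ (p q))) • (s (p q) - s' (p q)) -
            ((s q - s' q) (Γ (p q))) • s' (p q)‖ ≤ (a + 2 * e) * ‖s - s'‖ := by
        refine (norm_sub_le _ _).trans ?_
        rw [norm_smul, norm_smul, Real.norm_eq_abs]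
        have h2 : |A (p q) - s q (Γ (p q))| * ‖s (p q) - s' (p q)‖ ≤ (a + e) * ‖s - s'‖ := by
          have := hAq s hs q
          have := hd (p q)
          gcongr
        have h3 : ‖(s q - s' q) (Γ (p q))‖ * ‖s' (p q)‖ ≤ (‖s - s'‖ * e) * 1 := by
          have h4 : ‖(s q - s' q) (Γ (p q))‖ ≤ ‖s - s'‖ * e := by
            refine ((s q - s' q).le_opNorm _).trans ?_
            have := hd q
            have := hΓ' (p q)
            gcongr
          have := (hsx s' (p q)).trans hs'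
          gcongr
        linarith
      have h2 := hΔi' (p q)
      gcongr)
  have hθx : ∀ q, ((A (p q) - θ q (Γ (p q))) • θ (p q) + B (p q)).comp (Δi (p q)) = θ q := by
    intro q
    exact congrArg (fun s : C(X, W →L[ℝ] ℝ) => s q) hθ2
  refine ⟨θ, θ.continuous, fun x => ?_, fun x w => ?_⟩
  · have h1 := hbd θ hθ1 x
    rw [hθ2] at h1
    exact h1.trans_lt hlt
  · have h1 := hθx (φ x)
    have h2 : p (φ x) = x := φ.symm_apply_apply x
    rw [h2] at h1
    have h3 := congrArg (fun L : W →L[ℝ] ℝ => L (Δ x w)) h1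
    simp only [ContinuousLinearMap.comp_apply, hl, add_apply,
      smul_apply, smul_eq_mul] at h3
    rw [map_add, map_smul, smul_eq_mul]
    linarith

end Pool.Agent.Q296.LE
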